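import Mathlib

/-!
# A zero-one law for iid labels

If an event of the iid uniform labelling is invariant (up to null sets) under a set of
permutations of the index set which can move every finite set off itself infinitely often, then it
has probability `0` or `1`.
-/

namespace Pool.Agent.X83.FiidErgodic

open MeasureTheory ProbabilityTheory Finset

/-- The law of iid uniform `[0,1]` labels. -/
noncomputable def mu (V : Type) : Measure (V → unitInterval) :=
  Measure.infinitePi (fun _ : V => (volume : Measure unitInterval))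

instance (V : Type) : IsProbabilityMeasure (mu V) := by unfold mu; infer_instance

variable {V : Type}

/-- Relabelling by an injective map preserves the law. -/
lemma map_comp (g : V → V) (hg : Function.Injective g) :
    (mu V).map (fun ω v => ω (g v)) = mu V := by
  unfold mu
  exact Measure.map_infinitePi_infinitePi_of_inj (P := fun _ : V => (volume : Measure unitInterval))
    (f := g) hg

lemma measurable_comp (g : V → V) :
    Measurable (fun (ω : V → unitInterval) v => ω (g v)) := by fun_prop

lemma measurePreserving_comp (g : V → V) (hg : Function.Injective g) :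
    MeasurePreserving (fun (ω : V → unitInterval) v => ω (g v)) (mu V) (mu V) :=
  ⟨measurable_comp g, map_comp g hg⟩

open Classical in
/-- Boxes with disjoint supports are independent. -/
lemma box_indep (s s' : Finset V) (t t' : V → Set unitInterval) (ht : ∀ i, MeasurableSet (t i))
    (ht' : ∀ i, MeasurableSet (t' i)) (hd : Disjoint s s') :
    mu V (Set.pi s t ∩ Set.pi s' t') = mu V (Set.pi s t) * mu V (Set.pi s' t') := by
  unfold mu
  have h : (Set.pi (s : Set V) t ∩ Set.pi (s' : Set V) t')
      = Set.pi ((s ∪ s' : Finset V) : Set V) (fun i => if i ∈ s then t i else t' i) := by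
    ext ω
    simp only [Set.mem_inter_iff, Set.mem_pi, Finset.coe_union, Set.mem_union, Finset.mem_coe]
    constructor
    · rintro ⟨h1, h2⟩ i hi
      by_cases his : i ∈ s
      · rw [if_pos his]; exact h1 i his
      · rw [if_neg his]; exact h2 i (hi.resolve_left his)
    · intro h
      constructor
      · intro i hi
        have := h i (Or.inl hi)
        rwa [if_pos hi] at this
      · intro i hi
        have := h i (Or.inr hi)
        rwa [if_neg (fun hs => Finset.disjoint_left.mp hd hs hi)] at this
  rw [h, Measure.infinitePi_pi, Measure.infinitePi_pi, Measure.infinitePi_pi,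
    Finset.prod_union hd]
  · congr 1
    · apply Finset.prod_congr rfl
      intro i hi
      rw [if_pos hi]
    · apply Finset.prod_congr rfl
      intro i hi
      rw [if_neg (fun hs => Finset.disjoint_left.mp hd hs hi)]
  · intro i _; exact ht' i
  · intro i _; exact ht i
  · intro i _
    split_ifs
    · exact ht i
    · exact ht' i

lemma memLp_ind (B : Set (V → unitInterval)) (hB : MeasurableSet B) :
    MemLp (B.indicator (fun _ => (1 : ℝ))) 2 (mu V) :=
  memLp_indicator_const 2 hB 1 (Or.inr (measure_ne_top _ _))

lemma integral_ind (B : Set (V → unitInterval)) (hB : MeasurableSet B) :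
    ∫ ω, B.indicator (fun _ => (1 : ℝ)) ω ∂(mu V) = (mu V).real B := by
  rw [integral_indicator_const _ hB, smul_eq_mul, mul_one]

lemma cov_ind (B C : Set (V → unitInterval)) (hB : MeasurableSet B) (hC : MeasurableSet C) :
    cov[B.indicator (fun _ => (1 : ℝ)), C.indicator (fun _ => (1 : ℝ)); mu V]
      = (mu V).real (B ∩ C) - (mu V).real B * (mu V).real C := by
  rw [covariance_eq_sub (memLp_ind B hB) (memLp_ind C hC), integral_ind B hB, integral_ind C hC]
  congr 1
  rw [← integral_ind (B ∩ C) (hB.inter hC)]
  congr 1
  funext ω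
  rw [Pi.mul_apply]
  by_cases h1 : ω ∈ B
  · by_cases h2 : ω ∈ C
    · have h3 : ω ∈ B ∩ C := ⟨h1, h2⟩
      rw [Set.indicator_of_mem h1, Set.indicator_of_mem h2, Set.indicator_of_mem h3, mul_one]
    · have h3 : ω ∉ B ∩ C := fun h => h2 h.2
      rw [Set.indicator_of_notMem h2, Set.indicator_of_notMem h3, mul_zero]
  · have h3 : ω ∉ B ∩ C := fun h => h1 h.1
    rw [Set.indicator_of_notMem h1, Set.indicator_of_notMem h3, zero_mul]

/-- Variance inequality. -/
lemma cov_bound (Y : (V → unitInterval) → ℝ) (X : ℕ → (V → unitInterval) → ℝ)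
    (hY : MemLp Y 2 (mu V)) (hX : ∀ n, MemLp (X n) 2 (mu V)) (a v y : ℝ)
    (hXY : ∀ n, cov[X n, Y; mu V] = a) (hXX : ∀ m n, m ≠ n → cov[X m, X n; mu V] = 0)
    (hv : ∀ n, cov[X n, X n; mu V] = v) (hy : cov[Y, Y; mu V] = y) (c : ℝ) (N : ℕ) :
    0 ≤ c ^ 2 * y - 2 * c * N * a + N * v := by
  have hS : MemLp (∑ n ∈ Finset.range N, X n) 2 (mu V) :=
    memLp_finsetSum' _ (fun i _ => hX i)
  have hcY : MemLp (c • Y) 2 (mu V) := hY.const_smul c
  have h0 : 0 ≤ cov[c • Y - ∑ n ∈ Finset.range N, X n, c • Y - ∑ n ∈ Finset.range N, X n; mu V] := by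
    rw [covariance_self (hcY.sub hS).aestronglyMeasurable.aemeasurable]
    exact variance_nonneg _ _
  rw [covariance_sub_left hcY hS (hcY.sub hS), covariance_sub_right hcY hcY hS,
    covariance_sub_right hS hcY hS, covariance_smul_left, covariance_smul_right, hy,
    covariance_smul_left, covariance_smul_right, covariance_sum_right' (fun i _ => hX i) hY,
    covariance_sum_left' (fun i _ => hX i) hY,
    covariance_sum_sum' (fun i _ => hX i) (fun i _ => hX i)] at h0
  have e1 : ∑ i ∈ Finset.range N, cov[Y, X i; mu V] = N * a := by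
    rw [Finset.sum_congr rfl (fun i _ => by rw [covariance_comm, hXY i]), Finset.sum_const,
      Finset.card_range, nsmul_eq_mul]
  have e2 : ∑ i ∈ Finset.range N, cov[X i, Y; mu V] = N * a := by
    rw [Finset.sum_congr rfl (fun i _ => hXY i), Finset.sum_const,
      Finset.card_range, nsmul_eq_mul]
  have e3 : ∑ i ∈ Finset.range N, ∑ j ∈ Finset.range N, cov[X i, X j; mu V] = N * v := by
    have : ∀ i ∈ Finset.range N, ∑ j ∈ Finset.range N, cov[X i, X j; mu V] = v := by
      intro i hi
      rw [Finset.sum_eq_single i, hv]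
      · intro j _ hji; exact hXX i j (Ne.symm hji)
      · intro h; exact absurd hi h
    rw [Finset.sum_congr rfl this, Finset.sum_const, Finset.card_range, nsmul_eq_mul]
  rw [e1, e2, e3] at h0
  nlinarith [h0]

open Classical in
/-- **Zero-one law.** -/
theorem zero_one (A : Set (V → unitInterval)) (hA : MeasurableSet A) (Gs : Set (Equiv.Perm V))
    (hinv : ∀ g ∈ Gs, (fun (ω : V → unitInterval) v => ω (g v)) ⁻¹' A =ᵐ[mu V] A)
    (hdisj : ∀ s : Finset V, ∃ g : ℕ → Equiv.Perm V, (∀ n, g n ∈ Gs) ∧
      ∀ m n, m ≠ n → ∀ x ∈ s, ∀ y ∈ s, g m x ≠ g n y) :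
    mu V A = 0 ∨ mu V A = 1 := by
  have key : ∀ (s : Finset V) (t : V → Set unitInterval), (∀ i, MeasurableSet (t i)) →
      (mu V).real (Set.pi s t ∩ A) = (mu V).real (Set.pi s t) * (mu V).real A := by
    intro s t ht
    obtain ⟨g, hg, hdis0⟩ := hdisj s
    have hdis : ∀ m n, m ≠ n → Disjoint (s.image (g m)) (s.image (g n)) := by
      intro m n hmn
      rw [Finset.disjoint_left]
      intro z hz1 hz2
      rw [Finset.mem_image] at hz1 hz2
      obtain ⟨x, hx, rfl⟩ := hz1
      obtain ⟨y, hy, hyz⟩ := hz2
      exact hdis0 m n hmn x hx y hy hyz.symm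
    set E : Set (V → unitInterval) := Set.pi s t with hE
    have hEm : MeasurableSet E := MeasurableSet.pi s.countable_toSet (fun i _ => ht i)
    let S : ℕ → (V → unitInterval) → (V → unitInterval) := fun n ω v => ω (g n v)
    have hS : ∀ n, MeasurePreserving (S n) (mu V) (mu V) := fun n =>
      measurePreserving_comp (g n) (g n).injective
    let En : ℕ → Set (V → unitInterval) := fun n => S n ⁻¹' E
    have hEnm : ∀ n, MeasurableSet (En n) := fun n => (hS n).measurable hEm
    have hEn : ∀ n, En n = Set.pi ((s.image (g n) : Finset V) : Set V)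
        (fun v => t ((g n).symm v)) := by
      intro n
      ext ω
      simp only [En, S, hE, Set.mem_preimage, Set.mem_pi, Finset.coe_image, Set.mem_image,
        Finset.mem_coe]
      constructor
      · rintro h v ⟨i, hi, rfl⟩
        rw [Equiv.symm_apply_apply]
        exact h i hi
      · intro h i hi
        have := h (g n i) ⟨i, hi, rfl⟩
        rwa [Equiv.symm_apply_apply] at this
    have hp : ∀ n, (mu V).real (En n) = (mu V).real E := by
      intro n
      exact (hS n).measureReal_preimage hEm.nullMeasurableSet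
    have hXY : ∀ n, (mu V).real (En n ∩ A) = (mu V).real (E ∩ A) := by
      intro n
      have h1 : (mu V).real (S n ⁻¹' (E ∩ A)) = (mu V).real (E ∩ A) :=
        (hS n).measureReal_preimage (hEm.inter hA).nullMeasurableSet
      rw [← h1, Set.preimage_inter]
      apply measureReal_congr
      exact (Filter.EventuallyEq.refl _ _).inter (hinv (g n) (hg n)).symm
    have hXX : ∀ m n, m ≠ n → (mu V).real (En m ∩ En n) = (mu V).real E * (mu V).real E := by
      intro m n hmn
      have h2 := box_indep (s.image (g m)) (s.image (g n)) (fun v => t ((g m).symm v))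
        (fun v => t ((g n).symm v)) (fun i => ht _) (fun i => ht _) (hdis m n hmn)
      rw [← hEn m, ← hEn n] at h2
      unfold Measure.real at hp ⊢
      rw [h2, ENNReal.toReal_mul, hp m, hp n]
    set a := (mu V).real (E ∩ A) - (mu V).real E * (mu V).real A with ha
    have hbound : ∀ N : ℕ, (N : ℝ) * a ^ 2 ≤ 1 := by
      intro N
      have h1 := cov_bound (A.indicator (fun _ => (1 : ℝ)))
        (fun n => (En n).indicator (fun _ => (1 : ℝ)))
        (memLp_ind A hA) (fun n => memLp_ind _ (hEnm n)) a
        ((mu V).real E - (mu V).real E * (mu V).real E)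
        ((mu V).real A - (mu V).real A * (mu V).real A)
        (fun n => by rw [cov_ind _ _ (hEnm n) hA, hXY n, hp n])
        (fun m n hmn => by rw [cov_ind _ _ (hEnm m) (hEnm n), hXX m n hmn, hp m, hp n, sub_self])
        (fun n => by rw [cov_ind _ _ (hEnm n) (hEnm n), Set.inter_self, hp n])
        (by rw [cov_ind _ _ hA hA, Set.inter_self]) (N * a) N
      have hE0 : 0 ≤ (mu V).real E := measureReal_nonneg
      have hE1 : (mu V).real E ≤ 1 := measureReal_le_one
      have hA0 : 0 ≤ (mu V).real A := measureReal_nonneg
      have hA1 : (mu V).real A ≤ 1 := measureReal_le_one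
      have hv1 : (mu V).real E - (mu V).real E * (mu V).real E ≤ 1 := by nlinarith
      have hy1 : (mu V).real A - (mu V).real A * (mu V).real A ≤ 1 := by nlinarith
      have hN : (0 : ℝ) ≤ N := Nat.cast_nonneg N
      have h2 : (N * a) ^ 2 * ((mu V).real A - (mu V).real A * (mu V).real A) ≤ (N * a) ^ 2 * 1 :=
        mul_le_mul_of_nonneg_left hy1 (sq_nonneg _)
      have h3 : (N : ℝ) * ((mu V).real E - (mu V).real E * (mu V).real E) ≤ N * 1 :=
        mul_le_mul_of_nonneg_left hv1 hN
      have h4 : (N : ℝ) * (N * a ^ 2) ≤ N * 1 := by nlinarith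
      rcases Nat.eq_zero_or_pos N with h5 | h5
      · subst h5; simp
      · have h6 : (0 : ℝ) < N := by exact_mod_cast h5
        exact le_of_mul_le_mul_left h4 h6
    have ha0 : a = 0 := by
      by_contra hne
      have hpos : 0 < a ^ 2 := by positivity
      obtain ⟨N, hN⟩ := exists_nat_gt (1 / a ^ 2)
      have := hbound N
      rw [div_lt_iff₀ hpos] at hN
      linarith
    linarith
  by_cases h0 : mu V A = 0
  · exact Or.inl h0
  right
  have hpos : 0 < (mu V).real A := by
    rw [measureReal_def]
    exact ENNReal.toReal_pos h0 (measure_ne_top _ _)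
  have hfin : mu V A ≠ ⊤ := measure_ne_top _ _
  have hnu : (mu V A)⁻¹ • (mu V).restrict A = mu V := by
    conv_rhs => unfold mu
    apply Measure.eq_infinitePi
    intro s t ht
    have hEm : MeasurableSet (Set.pi (s : Set V) t) :=
      MeasurableSet.pi s.countable_toSet (fun i _ => ht i)
    rw [Measure.smul_apply, Measure.restrict_apply hEm, smul_eq_mul]
    have h1 := key s t ht
    have h2 : mu V (Set.pi s t ∩ A) = mu V (Set.pi s t) * mu V A := by
      rw [measureReal_def, measureReal_def, measureReal_def, ← ENNReal.toReal_mul] at h1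
      exact (ENNReal.toReal_eq_toReal_iff' (measure_ne_top _ _)
        (ENNReal.mul_ne_top (measure_ne_top _ _) hfin)).mp h1
    rw [h2, mul_comm, mul_assoc, ENNReal.mul_inv_cancel h0 hfin, mul_one]
    unfold mu
    rw [Measure.infinitePi_pi _ (fun i _ => ht i)]
  have h3 : ((mu V A)⁻¹ • (mu V).restrict A) A = mu V A := by rw [hnu]
  rw [Measure.smul_apply, Measure.restrict_apply hA, Set.inter_self, smul_eq_mul,
    ENNReal.inv_mul_cancel h0 hfin] at h3
  exact h3.symm

end Pool.Agent.X83.FiidErgodic
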